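import Pool.Agent.Helper89.Hia.Defs

/-!
MP_5ace61_lc, block C (`good_of_lim`), helper51, following helper89's blueprint.
-/

open Set Cardinal

namespace Pool.Agent.Hia

/-- `P` is an initial segment of `C₀` whose cut can be filled in by an element of `A` -/
def FillCut (A : BooleanSubalgebra (Set ℕ)) (C₀ P : Set (Set ℕ)) : Prop :=
  P ⊆ C₀ ∧ ∃ a ∈ A, (∀ c ∈ P, c ⊆ a) ∧ ∀ c ∈ C₀ \ P, a ⊆ c

/-- BLOCK C (fill-ins) -/
theorem good_of_lim {A : BooleanSubalgebra (Set ℕ)} {C₀ : Set (Set ℕ)} (h0 : C₀ ⊆ A)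
    (hch : IsChain (· ⊆ ·) C₀) (hup : LimUp A C₀) (hdn : LimDown A C₀) :
    ∃ C, C₀ ⊆ C ∧ GoodChain A univ C := by
  classical
  have hex : ∀ P : Set (Set ℕ), ∃ a : Set ℕ, FillCut A C₀ P →
      a ∈ A ∧ (∀ c ∈ P, c ⊆ a) ∧ ∀ c ∈ C₀ \ P, a ⊆ c := by
    intro P
    by_cases h : FillCut A C₀ P
    · obtain ⟨a, h1, h2, h3⟩ := h.2
      exact ⟨a, fun _ => ⟨h1, h2, h3⟩⟩
    · exact ⟨∅, fun h' => absurd h' h⟩
  choose f hf using hex
  have htot : ∀ c ∈ C₀, ∀ c' ∈ C₀, c ⊆ c' ∨ c' ⊆ c := fun c hc c' hc' => hch.total hc hc'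
  -- separation of different fill-ins
  have hsep : ∀ P P', FillCut A C₀ P → FillCut A C₀ P' → P ≠ P' →
      ∃ c ∈ C₀, (f P ⊆ c ∧ c ⊆ f P') ∨ (f P' ⊆ c ∧ c ⊆ f P) := by
    intro P P' hP hP' hne
    by_cases h : P ⊆ P'
    · have : ∃ c ∈ P', c ∉ P := by
        by_contra hcon
        push Not at hcon
        exact hne (Subset.antisymm h hcon)
      obtain ⟨c, hc, hc'⟩ := this
      exact ⟨c, hP'.1 hc, Or.inl ⟨(hf P hP).2.2 c ⟨hP'.1 hc, hc'⟩, (hf P' hP').2.1 c hc⟩⟩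
    · obtain ⟨c, hc, hc'⟩ := not_subset.1 h
      exact ⟨c, hP.1 hc, Or.inr ⟨(hf P' hP').2.2 c ⟨hP.1 hc, hc'⟩, (hf P hP).2.1 c hc⟩⟩
  set C : Set (Set ℕ) := {x | x ∈ C₀ ∨ x = ∅ ∨ x = Set.univ ∨ ∃ P, FillCut A C₀ P ∧ x = f P}
    with hC
  have hCtot : ∀ c ∈ C, ∀ c' ∈ C, c ⊆ c' ∨ c' ⊆ c := by
    rintro c (hc | rfl | rfl | ⟨P, hP, rfl⟩) c' (hc' | rfl | rfl | ⟨P', hP', rfl⟩)
    · exact htot c hc c' hc'
    · exact Or.inr (empty_subset _)
    · exact Or.inl (subset_univ _)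
    · by_cases h : c ∈ P'
      · exact Or.inl ((hf P' hP').2.1 c h)
      · exact Or.inr ((hf P' hP').2.2 c ⟨hc, h⟩)
    · exact Or.inl (empty_subset _)
    · exact Or.inl (empty_subset _)
    · exact Or.inl (empty_subset _)
    · exact Or.inl (empty_subset _)
    · exact Or.inr (subset_univ _)
    · exact Or.inr (subset_univ _)
    · exact Or.inr (subset_univ _)
    · exact Or.inr (subset_univ _)
    · by_cases h : c' ∈ P
      · exact Or.inr ((hf P hP).2.1 c' h)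
      · exact Or.inl ((hf P hP).2.2 c' ⟨hc', h⟩)
    · exact Or.inr (empty_subset _)
    · exact Or.inl (subset_univ _)
    · by_cases h : P = P'
      · subst h; exact Or.inl (Subset.refl _)
      · obtain ⟨c, _, h | h⟩ := hsep P P' hP hP' h
        · exact Or.inl (h.1.trans h.2)
        · exact Or.inr (h.1.trans h.2)
  have hCA : C ⊆ A := by
    rintro c (hc | rfl | rfl | ⟨P, hP, rfl⟩)
    · exact h0 hc
    · exact BooleanSubalgebra.bot_mem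
    · exact BooleanSubalgebra.top_mem
    · exact (hf P hP).1
  have hC0C : C₀ ⊆ C := fun c hc => Or.inl hc
  have hbot : (∅ : Set ℕ) ∈ C := Or.inr (Or.inl rfl)
  have htop : (Set.univ : Set ℕ) ∈ C := Or.inr (Or.inr (Or.inl rfl))
  refine ⟨C, hC0C, ⟨hCA, fun c _ => subset_univ c, ?_, hbot, htop, ?_⟩⟩
  · intro a ha b hb _
    exact hCtot a ha b hb
  intro q hq _
  set G := BooleanSubalgebra.closure (C ∪ {u | u ∈ A ∧ u ⊆ Set.univ ∧ Triv C u}) with hG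
  have hCG : ∀ c ∈ C, c ∈ G := fun c hc => BooleanSubalgebra.subset_closure (Or.inl hc)
  have hTG : ∀ u ∈ A, Triv C u → u ∈ G :=
    fun u hu ht => BooleanSubalgebra.subset_closure (Or.inr ⟨hu, subset_univ u, ht⟩)
  by_contra hqG
  -- lower part of the cut
  set Cm : Set (Set ℕ) := {c | c ∈ C ∧ q ∩ c ∈ G} with hCm
  set Cp : Set (Set ℕ) := {c | c ∈ C ∧ q ∩ c ∉ G} with hCp
  have hinit : ∀ c ∈ Cm, ∀ c' ∈ C, c' ⊆ c → c' ∈ Cm := by
    intro c hc c' hc' hsub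
    refine ⟨hc', ?_⟩
    have : q ∩ c' = (q ∩ c) ∩ c' := by
      rw [inter_assoc, inter_eq_self_of_subset_right hsub]
    rw [this]
    exact BooleanSubalgebra.inf_mem hc.2 (hCG c' hc')
  have hmp : ∀ c ∈ Cm, ∀ c' ∈ Cp, c ⊆ c' := by
    intro c hc c' hc'
    rcases hCtot c hc.1 c' hc'.1 with h | h
    · exact h
    · exact absurd (hinit c hc c' hc'.1 h).2 hc'.2
  have hbotm : (∅ : Set ℕ) ∈ Cm := ⟨hbot, by rw [inter_empty]; exact BooleanSubalgebra.bot_mem⟩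
  have htopp : (Set.univ : Set ℕ) ∈ Cp := ⟨htop, by rw [inter_univ]; exact hqG⟩
  have hdich : ∀ c ∈ C, c ∈ Cm ∨ c ∈ Cp := by
    intro c hc
    by_cases h : q ∩ c ∈ G
    · exact Or.inl ⟨hc, h⟩
    · exact Or.inr ⟨hc, h⟩
  -- the two ways to get a contradiction
  have hkill1 : ∀ a ∈ Cm, ∀ b ∈ Cp, q ∩ (b \ a) ∉ G := by
    intro a ha b hb h
    apply hb.2
    have : q ∩ b = (q ∩ a) ∪ (q ∩ (b \ a)) := by
      have hab := hmp a ha b hb
      ext x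
      simp only [mem_inter_iff, mem_union, mem_sdiff]
      constructor
      · rintro ⟨h1, h2⟩
        by_cases h3 : x ∈ a
        · exact Or.inl ⟨h1, h3⟩
        · exact Or.inr ⟨h1, h2, h3⟩
      · rintro (⟨h1, h2⟩ | ⟨h1, h2, _⟩)
        · exact ⟨h1, hab h2⟩
        · exact ⟨h1, h2⟩
    rw [this]
    exact BooleanSubalgebra.sup_mem ha.2 h
  have hkill2 : ∀ a ∈ Cm, ∀ b ∈ Cp, (b \ a) \ q ∉ G := by
    intro a ha b hb h
    apply hkill1 a ha b hb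
    have : q ∩ (b \ a) = (b \ a) \ ((b \ a) \ q) := by
      ext x
      simp only [mem_inter_iff, mem_sdiff]
      tauto
    rw [this]
    exact BooleanSubalgebra.sdiff_mem
      (BooleanSubalgebra.sdiff_mem (hCG b hb.1) (hCG a ha.1)) h
  have hA1 : ∀ a ∈ C, ∀ b ∈ C, q ∩ (b \ a) ∈ A := fun a ha b hb =>
    BooleanSubalgebra.inf_mem hq (BooleanSubalgebra.sdiff_mem (hCA hb) (hCA ha))
  have hA2 : ∀ a ∈ C, ∀ b ∈ C, (b \ a) \ q ∈ A := fun a ha b hb =>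
    BooleanSubalgebra.sdiff_mem (BooleanSubalgebra.sdiff_mem (hCA hb) (hCA ha)) hq
  -- cofinality
  have hcof : (∀ c ∈ Cm, ∃ c' ∈ Cm, c ⊂ c') → ∀ c ∈ Cm, ∃ c' ∈ C₀, c' ∈ Cm ∧ c ⊆ c' := by
    intro hno c hc
    obtain ⟨c₁, hc₁, h01⟩ := hno c hc
    obtain ⟨c₂, hc₂, h12⟩ := hno c₁ hc₁
    obtain ⟨c₃, hc₃, h23⟩ := hno c₂ hc₂
    rcases hc₁.1 with h | h | h | ⟨P, hP, h⟩
    · exact ⟨c₁, h, hc₁, h01.subset⟩
    · subst h
      exact absurd (empty_subset _) h01.2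
    · subst h
      exact absurd (subset_univ _) h12.2
    · rcases hc₂.1 with h' | h' | h' | ⟨P', hP', h'⟩
      · exact ⟨c₂, h', hc₂, h01.subset.trans h12.subset⟩
      · subst h'
        exact absurd (empty_subset _) h12.2
      · subst h'
        exact absurd (subset_univ _) h23.2
      · have hne : P ≠ P' := by
          rintro rfl
          rw [h, h'] at h12
          exact h12.2 (Subset.refl _)
        obtain ⟨d, hd, h4 | h4⟩ := hsep P P' hP hP' hne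
        · refine ⟨d, hd, hinit c₂ hc₂ d (hC0C hd) (h'.symm ▸ h4.2), ?_⟩
          exact h01.subset.trans (h.symm ▸ h4.1)
        · exfalso
          apply h12.2
          rw [h, h']
          exact h4.1.trans h4.2
  have hcoi : (∀ c ∈ Cp, ∃ c' ∈ Cp, c' ⊂ c) → ∀ c ∈ Cp, ∃ c' ∈ C₀, c' ∈ Cp ∧ c' ⊆ c := by
    intro hno c hc
    have hfin : ∀ c ∈ Cp, ∀ c' ∈ C, c ⊆ c' → c' ∈ Cp := by
      intro c hc c' hc' hsub
      rcases hdich c' hc' with h | h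
      · exact absurd (hinit c' h c hc.1 hsub).2 hc.2
      · exact h
    obtain ⟨c₁, hc₁, h01⟩ := hno c hc
    obtain ⟨c₂, hc₂, h12⟩ := hno c₁ hc₁
    obtain ⟨c₃, hc₃, h23⟩ := hno c₂ hc₂
    rcases hc₁.1 with h | h | h | ⟨P, hP, h⟩
    · exact ⟨c₁, h, hc₁, h01.subset⟩
    · subst h
      exact absurd (empty_subset _) h12.2
    · subst h
      exact absurd (subset_univ _) h01.2
    · rcases hc₂.1 with h' | h' | h' | ⟨P', hP', h'⟩
      · exact ⟨c₂, h', hc₂, h12.subset.trans h01.subset⟩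
      · subst h'
        exact absurd (empty_subset _) h23.2
      · subst h'
        exact absurd (subset_univ _) h12.2
      · have hne : P ≠ P' := by
          rintro rfl
          rw [h, h'] at h12
          exact h12.2 (Subset.refl _)
        obtain ⟨d, hd, h4 | h4⟩ := hsep P P' hP hP' hne
        · exfalso
          apply h12.2
          rw [h, h']
          exact h4.1.trans h4.2
        · refine ⟨d, hd, hfin c₂ hc₂ d (hC0C hd) (h'.symm ▸ h4.1), ?_⟩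
          exact Subset.trans (h.symm ▸ h4.2) h01.subset
  -- consequences of the limit hypotheses
  have hL : (∀ c ∈ Cm, ∃ c' ∈ Cm, c ⊂ c') → ∃ a₀ ∈ Cm,
      (∀ a ∈ Cm, a \ a₀ ⊆ q) ∨ (∀ a ∈ Cm, Disjoint (a \ a₀) q) := by
    intro hno
    have hcof' := hcof hno
    have hS := hup (C₀ ∩ Cm) inter_subset_left
      (by obtain ⟨c, h1, h2, _⟩ := hcof' ∅ hbotm
          exact ⟨c, h1, h2⟩)
      (by rintro a ⟨h1, h2⟩
          obtain ⟨b, hb, hab⟩ := hno a h2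
          obtain ⟨b', h3, h4, h5⟩ := hcof' b hb
          exact ⟨b', ⟨h3, h4⟩, hab.trans_subset h5⟩) q hq
    obtain ⟨a₀, ha₀, h | h⟩ := hS
    · refine ⟨a₀, ha₀.2, Or.inl ?_⟩
      intro a ha
      rcases hCtot a₀ ha₀.2.1 a ha.1 with h1 | h1
      · obtain ⟨b', h3, h4, h5⟩ := hcof' a ha
        exact (sdiff_subset_sdiff_left h5).trans (h b' ⟨h3, h4⟩ (h1.trans h5))
      · rw [sdiff_eq_empty.2 h1]
        exact empty_subset _
    · refine ⟨a₀, ha₀.2, Or.inr ?_⟩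
      intro a ha
      rcases hCtot a₀ ha₀.2.1 a ha.1 with h1 | h1
      · obtain ⟨b', h3, h4, h5⟩ := hcof' a ha
        exact (h b' ⟨h3, h4⟩ (h1.trans h5)).mono_left (sdiff_subset_sdiff_left h5)
      · rw [sdiff_eq_empty.2 h1]
        exact disjoint_bot_left
  have hR : (∀ c ∈ Cp, ∃ c' ∈ Cp, c' ⊂ c) → ∃ b₀ ∈ Cp,
      (∀ b ∈ Cp, b₀ \ b ⊆ q) ∨ (∀ b ∈ Cp, Disjoint (b₀ \ b) q) := by
    intro hno
    have hcoi' := hcoi hno
    have hS := hdn (C₀ ∩ Cp) inter_subset_left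
      (by obtain ⟨c, h1, h2, _⟩ := hcoi' Set.univ htopp
          exact ⟨c, h1, h2⟩)
      (by rintro a ⟨h1, h2⟩
          obtain ⟨b, hb, hab⟩ := hno a h2
          obtain ⟨b', h3, h4, h5⟩ := hcoi' b hb
          exact ⟨b', ⟨h3, h4⟩, h5.trans_ssubset hab⟩) q hq
    obtain ⟨b₀, hb₀, h | h⟩ := hS
    · refine ⟨b₀, hb₀.2, Or.inl ?_⟩
      intro b hb
      rcases hCtot b hb.1 b₀ hb₀.2.1 with h1 | h1
      · obtain ⟨b', h3, h4, h5⟩ := hcoi' b hb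
        exact (sdiff_subset_sdiff_right h5).trans (h b' ⟨h3, h4⟩ (h5.trans h1))
      · rw [sdiff_eq_empty.2 h1]
        exact empty_subset _
    · refine ⟨b₀, hb₀.2, Or.inr ?_⟩
      intro b hb
      rcases hCtot b hb.1 b₀ hb₀.2.1 with h1 | h1
      · obtain ⟨b', h3, h4, h5⟩ := hcoi' b hb
        exact (h b' ⟨h3, h4⟩ (h5.trans h1)).mono_left (sdiff_subset_sdiff_right h5)
      · rw [sdiff_eq_empty.2 h1]
        exact disjoint_bot_left
  -- the same behaviour on both sides is impossible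
  have hT1 : ∀ a₀ ∈ Cm, ∀ b₀ ∈ Cp, (∀ a ∈ Cm, a \ a₀ ⊆ q) → (∀ b ∈ Cp, b₀ \ b ⊆ q) →
      False := by
    intro a₀ ha₀ b₀ hb₀ h1 h2
    refine hkill2 a₀ ha₀ b₀ hb₀ (hTG _ (hA2 a₀ ha₀.1 b₀ hb₀.1) ?_)
    intro d hd
    rcases hdich d hd with h | h
    · right
      rw [Set.disjoint_left]
      rintro x ⟨⟨_, h3⟩, h4⟩ h5
      exact h4 (h1 d h ⟨h5, h3⟩)
    · left
      rintro x ⟨⟨h3, _⟩, h4⟩
      by_contra h5
      exact h4 (h2 d h ⟨h3, h5⟩)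
  have hT2 : ∀ a₀ ∈ Cm, ∀ b₀ ∈ Cp, (∀ a ∈ Cm, Disjoint (a \ a₀) q) →
      (∀ b ∈ Cp, Disjoint (b₀ \ b) q) → False := by
    intro a₀ ha₀ b₀ hb₀ h1 h2
    refine hkill1 a₀ ha₀ b₀ hb₀ (hTG _ (hA1 a₀ ha₀.1 b₀ hb₀.1) ?_)
    intro d hd
    rcases hdich d hd with h | h
    · right
      rw [Set.disjoint_left]
      rintro x ⟨h4, _, h3⟩ h5
      exact Set.disjoint_left.1 (h1 d h) ⟨h5, h3⟩ h4
    · left
      rintro x ⟨h4, h3, _⟩
      by_contra h5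
      exact Set.disjoint_left.1 (h2 d h) ⟨h3, h5⟩ h4
  -- a fill-in is impossible if there is neither a maximum nor a minimum
  have hT3 : (∀ c ∈ Cm, ∃ c' ∈ Cm, c ⊂ c') → (∀ c ∈ Cp, ∃ c' ∈ Cp, c' ⊂ c) →
      ∀ a ∈ A, (∀ c ∈ Cm, c ⊆ a) → (∀ c ∈ Cp, a ⊆ c) → False := by
    intro hno1 hno2 a haA h1 h2
    have hP : FillCut A C₀ (C₀ ∩ Cm) := by
      refine ⟨inter_subset_left, a, haA, fun c hc => h1 c hc.2, ?_⟩
      rintro c ⟨hc, hc'⟩
      rcases hdich c (hC0C hc) with h | h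
      · exact absurd ⟨hc, h⟩ hc'
      · exact h2 c h
    obtain ⟨_, h3, h4⟩ := hf _ hP
    have hfC : f (C₀ ∩ Cm) ∈ C := Or.inr (Or.inr (Or.inr ⟨_, hP, rfl⟩))
    rcases hdich _ hfC with h | h
    · obtain ⟨c, hc, hc'⟩ := hno1 _ h
      obtain ⟨d, hd, hd', hcd⟩ := hcof hno1 c hc
      exact hc'.2 (hcd.trans (h3 d ⟨hd, hd'⟩))
    · obtain ⟨c, hc, hc'⟩ := hno2 _ h
      obtain ⟨d, hd, hd', hcd⟩ := hcoi hno2 c hc
      refine hc'.2 ((h4 d ⟨hd, fun h5 => ?_⟩).trans hcd)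
      exact hd'.2 h5.2.2
  have hmax : (¬ ∀ c ∈ Cm, ∃ c' ∈ Cm, c ⊂ c') → ∃ a₀ ∈ Cm, ∀ a ∈ Cm, a \ a₀ = ∅ := by
    intro hno
    push Not at hno
    obtain ⟨c, hc, h⟩ := hno
    refine ⟨c, hc, ?_⟩
    intro a ha
    rw [sdiff_eq_empty]
    rcases hCtot a ha.1 c hc.1 with h1 | h1
    · exact h1
    · by_contra h2
      exact h a ha ⟨h1, h2⟩
  have hmin : (¬ ∀ c ∈ Cp, ∃ c' ∈ Cp, c' ⊂ c) → ∃ b₀ ∈ Cp, ∀ b ∈ Cp, b₀ \ b = ∅ := by
    intro hno
    push Not at hno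
    obtain ⟨c, hc, h⟩ := hno
    refine ⟨c, hc, ?_⟩
    intro b hb
    rw [sdiff_eq_empty]
    rcases hCtot c hc.1 b hb.1 with h1 | h1
    · exact h1
    · by_contra h2
      exact h b hb ⟨h1, h2⟩
  by_cases hno1 : ∀ c ∈ Cm, ∃ c' ∈ Cm, c ⊂ c'
  · obtain ⟨a₀, ha₀, hl⟩ := hL hno1
    by_cases hno2 : ∀ c ∈ Cp, ∃ c' ∈ Cp, c' ⊂ c
    · obtain ⟨b₀, hb₀, hr⟩ := hR hno2
      rcases hl with hl | hl <;> rcases hr with hr | hr
      · exact hT1 a₀ ha₀ b₀ hb₀ hl hr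
      · refine hT3 hno1 hno2 (a₀ ∪ ((b₀ \ a₀) ∩ q)) (BooleanSubalgebra.sup_mem (hCA ha₀.1)
          (BooleanSubalgebra.inf_mem (BooleanSubalgebra.sdiff_mem (hCA hb₀.1) (hCA ha₀.1)) hq))
          ?_ ?_
        · intro c hc x hx
          by_cases h : x ∈ a₀
          · exact Or.inl h
          · exact Or.inr ⟨⟨hmp c hc b₀ hb₀ hx, h⟩, hl c hc ⟨hx, h⟩⟩
        · rintro c hc x (hx | ⟨⟨h1, h2⟩, h3⟩)
          · exact hmp a₀ ha₀ c hc hx
          · by_contra h4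
            exact Set.disjoint_left.1 (hr c hc) ⟨h1, h4⟩ h3
      · refine hT3 hno1 hno2 (a₀ ∪ ((b₀ \ a₀) \ q)) (BooleanSubalgebra.sup_mem (hCA ha₀.1)
          (BooleanSubalgebra.sdiff_mem (BooleanSubalgebra.sdiff_mem (hCA hb₀.1) (hCA ha₀.1))
            hq)) ?_ ?_
        · intro c hc x hx
          by_cases h : x ∈ a₀
          · exact Or.inl h
          · exact Or.inr ⟨⟨hmp c hc b₀ hb₀ hx, h⟩,
              fun h3 => Set.disjoint_left.1 (hl c hc) ⟨hx, h⟩ h3⟩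
        · rintro c hc x (hx | ⟨⟨h1, h2⟩, h3⟩)
          · exact hmp a₀ ha₀ c hc hx
          · by_contra h4
            exact h3 (hr c hc ⟨h1, h4⟩)
      · exact hT2 a₀ ha₀ b₀ hb₀ hl hr
    · obtain ⟨b₀, hb₀, hr⟩ := hmin hno2
      rcases hl with hl | hl
      · exact hT1 a₀ ha₀ b₀ hb₀ hl fun b hb => by rw [hr b hb]; exact empty_subset _
      · exact hT2 a₀ ha₀ b₀ hb₀ hl fun b hb => by rw [hr b hb]; exact disjoint_bot_left
  · obtain ⟨a₀, ha₀, hl⟩ := hmax hno1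
    by_cases hno2 : ∀ c ∈ Cp, ∃ c' ∈ Cp, c' ⊂ c
    · obtain ⟨b₀, hb₀, hr⟩ := hR hno2
      rcases hr with hr | hr
      · exact hT1 a₀ ha₀ b₀ hb₀ (fun a ha => by rw [hl a ha]; exact empty_subset _) hr
      · exact hT2 a₀ ha₀ b₀ hb₀ (fun a ha => by rw [hl a ha]; exact disjoint_bot_left) hr
    · obtain ⟨b₀, hb₀, hr⟩ := hmin hno2
      exact hT1 a₀ ha₀ b₀ hb₀ (fun a ha => by rw [hl a ha]; exact empty_subset _)
        fun b hb => by rw [hr b hb]; exact empty_subset _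

end Pool.Agent.Hia
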